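import Pool.Agent.X23.L3.Stm

set_option autoImplicit false

namespace Pool.Agent.X71.L3

open Pool.Agent.X23.L3

/-- lexicographic positivity of four numbers -/
def LP (a b c d : ℝ) : Prop := 0 < a ∨ (a = 0 ∧ (0 < b ∨ (b = 0 ∧ (0 < c ∨ (c = 0 ∧ 0 < d)))))

theorem LP_add {a b c d a' b' c' d' : ℝ} (h : LP a b c d) (h' : LP a' b' c' d') :
    LP (a + a') (b + b') (c + c') (d + d') := by
  unfold LP at *
  rcases h with h | ⟨h1, h | ⟨h2, h | ⟨h3, h⟩⟩⟩ <;>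
    rcases h' with g | ⟨g1, g | ⟨g2, g | ⟨g3, g⟩⟩⟩
  all_goals first
    | exact Or.inl (by linarith)
    | exact Or.inr ⟨by linarith, Or.inl (by linarith)⟩
    | exact Or.inr ⟨by linarith, Or.inr ⟨by linarith, Or.inl (by linarith)⟩⟩
    | exact Or.inr ⟨by linarith, Or.inr ⟨by linarith, Or.inr ⟨by linarith, by linarith⟩⟩⟩

theorem LP_mul {s a b c d : ℝ} (hs : 0 < s) (h : LP a b c d) :
    LP (s * a) (s * b) (s * c) (s * d) := by
  unfold LP at *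
  rcases h with h | ⟨h1, h | ⟨h2, h | ⟨h3, h⟩⟩⟩
  · exact Or.inl (mul_pos hs h)
  · exact Or.inr ⟨by rw [h1, mul_zero], Or.inl (mul_pos hs h)⟩
  · exact Or.inr ⟨by rw [h1, mul_zero], Or.inr ⟨by rw [h2, mul_zero], Or.inl (mul_pos hs h)⟩⟩
  · exact Or.inr ⟨by rw [h1, mul_zero], Or.inr ⟨by rw [h2, mul_zero],
      Or.inr ⟨by rw [h3, mul_zero], mul_pos hs h⟩⟩⟩

theorem LP_tri (a b c d : ℝ) (h : ¬ (b = 0 ∧ c = 0 ∧ d = 0)) :
    LP a b c d ∨ LP (-a) (-b) (-c) (-d) := by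
  unfold LP
  rcases lt_trichotomy a 0 with ha | ha | ha
  · exact Or.inr (Or.inl (by linarith))
  · rcases lt_trichotomy b 0 with hb | hb | hb
    · exact Or.inr (Or.inr ⟨by linarith, Or.inl (by linarith)⟩)
    · rcases lt_trichotomy c 0 with hc | hc | hc
      · exact Or.inr (Or.inr ⟨by linarith, Or.inr ⟨by linarith, Or.inl (by linarith)⟩⟩)
      · rcases lt_trichotomy d 0 with hd | hd | hd
        · exact Or.inr (Or.inr ⟨by linarith, Or.inr ⟨by linarith,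
            Or.inr ⟨by linarith, by linarith⟩⟩⟩)
        · exact absurd ⟨hb, hc, hd⟩ h
        · exact Or.inl (Or.inr ⟨ha, Or.inr ⟨hb, Or.inr ⟨hc, hd⟩⟩⟩)
      · exact Or.inl (Or.inr ⟨ha, Or.inr ⟨hb, Or.inl hc⟩⟩)
    · exact Or.inl (Or.inr ⟨ha, Or.inl hb⟩)
  · exact Or.inl (Or.inl ha)

theorem lp_iff (f v : Fin 3 → ℝ) : lp f v ↔ LP (f ⬝ᵥ v) (v 0) (v 1) (v 2) := Iff.rfl

theorem lp_add {f v w : Fin 3 → ℝ} (h : lp f v) (h' : lp f w) : lp f (v + w) := by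
  rw [lp_iff] at *
  rw [dotProduct_add]
  exact LP_add h h'

theorem lp_smul {f v : Fin 3 → ℝ} {s : ℝ} (hs : 0 < s) (h : lp f v) : lp f (s • v) := by
  rw [lp_iff] at *
  rw [dotProduct_smul]
  exact LP_mul hs h

theorem lp_tri (f : Fin 3 → ℝ) {v : Fin 3 → ℝ} (h : v ≠ 0) : lp f v ∨ lp f (-v) := by
  rw [lp_iff, lp_iff, dotProduct_neg]
  refine LP_tri _ _ _ _ ?_
  rintro ⟨h0, h1, h2⟩
  apply h
  ext k
  fin_cases k
  · exact h0
  · exact h1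
  · exact h2

theorem lp_comb {f v w u : Fin 3 → ℝ} {s t : ℝ} (h : lp f v) (h' : lp f w) (hs : 0 ≤ s)
    (ht : 0 ≤ t) (hu : u = s • v + t • w) (hne : u ≠ 0) : lp f u := by
  rcases hs.eq_or_lt with hs | hs
  · rcases ht.eq_or_lt with ht | ht
    · exact absurd (by rw [hu, ← hs, ← ht, zero_smul, zero_smul, add_zero]) hne
    · rw [hu, ← hs, zero_smul, zero_add]
      exact lp_smul ht h'
  · rcases ht.eq_or_lt with ht | ht
    · rw [hu, ← ht, zero_smul, add_zero]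
      exact lp_smul hs h
    · rw [hu]
      exact lp_add (lp_smul hs h) (lp_smul ht h')

/-- two of the dual vectors have the same sign: the statement for the third facet -/
theorem pair {f q v w : Fin 3 → ℝ} {J : Type} (c : J → Fin 3 → ℝ) (d : J → ℝ) (j j1 j2 : J)
    (t1 : c j1 ⬝ᵥ q = d j1) (t2 : c j2 ⬝ᵥ q = d j2) (t : c j ⬝ᵥ q = d j)
    (hrep : ∀ u : Fin 3 → ℝ, c j ⬝ᵥ u = 0 → u = (c j1 ⬝ᵥ u) • v + (c j2 ⬝ᵥ u) • w)
    (h : (lp f v ∧ lp f w) ∨ (lp f (-v) ∧ lp f (-w))) :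
    (∀ x, (∀ i, c i ⬝ᵥ x ≤ d i) → c j ⬝ᵥ x = d j → x ≠ q → lp f (q - x)) ∨
      (∀ x, (∀ i, c i ⬝ᵥ x ≤ d i) → c j ⬝ᵥ x = d j → x ≠ q → lp f (x - q)) := by
  rcases h with ⟨h1, h2⟩ | ⟨h1, h2⟩
  · left
    intro x hx hxj hne
    have h0 : c j ⬝ᵥ (q - x) = 0 := by rw [dotProduct_sub, t, hxj, sub_self]
    refine lp_comb h1 h2 ?_ ?_ (hrep _ h0) (sub_ne_zero.2 hne.symm)
    · rw [dotProduct_sub, t1]
      linarith [hx j1]
    · rw [dotProduct_sub, t2]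
      linarith [hx j2]
  · right
    intro x hx hxj hne
    have h0 : c j ⬝ᵥ (x - q) = 0 := by rw [dotProduct_sub, t, hxj, sub_self]
    refine lp_comb (s := -(c j1 ⬝ᵥ (x - q))) (t := -(c j2 ⬝ᵥ (x - q))) h1 h2 ?_ ?_ ?_
      (sub_ne_zero.2 hne)
    · rw [dotProduct_sub, t1]
      linarith [hx j1]
    · rw [dotProduct_sub, t2]
      linarith [hx j2]
    · rw [neg_smul_neg, neg_smul_neg]
      exact hrep _ h0

theorem dual (A B E : Fin 3 → ℝ)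
    (hD : E 0 * (A 1 * B 2 - A 2 * B 1) + E 1 * (A 2 * B 0 - A 0 * B 2) +
      E 2 * (A 0 * B 1 - A 1 * B 0) ≠ 0) :
    ∃ U V W : Fin 3 → ℝ, A ⬝ᵥ U = 1 ∧ B ⬝ᵥ V = 1 ∧ E ⬝ᵥ W = 1 ∧
      ∀ u : Fin 3 → ℝ, u = (A ⬝ᵥ u) • U + (B ⬝ᵥ u) • V + (E ⬝ᵥ u) • W := by
  set D := E 0 * (A 1 * B 2 - A 2 * B 1) + E 1 * (A 2 * B 0 - A 0 * B 2) +
      E 2 * (A 0 * B 1 - A 1 * B 0) with hDd
  refine ⟨![(B 1 * E 2 - B 2 * E 1) / D, (B 2 * E 0 - B 0 * E 2) / D,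
      (B 0 * E 1 - B 1 * E 0) / D],
    ![(E 1 * A 2 - E 2 * A 1) / D, (E 2 * A 0 - E 0 * A 2) / D, (E 0 * A 1 - E 1 * A 0) / D],
    ![(A 1 * B 2 - A 2 * B 1) / D, (A 2 * B 0 - A 0 * B 2) / D, (A 0 * B 1 - A 1 * B 0) / D],
    ?_, ?_, ?_, ?_⟩
  · simp only [dotProduct, Fin.sum_univ_three, Matrix.cons_val_zero, Matrix.cons_val_one,
      Matrix.cons_val]
    field_simp
    rw [hDd]
    ring
  · simp only [dotProduct, Fin.sum_univ_three, Matrix.cons_val_zero, Matrix.cons_val_one,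
      Matrix.cons_val]
    field_simp
    rw [hDd]
    ring
  · simp only [dotProduct, Fin.sum_univ_three, Matrix.cons_val_zero, Matrix.cons_val_one,
      Matrix.cons_val]
    field_simp
    rw [hDd]
    ring
  · intro u
    ext k
    fin_cases k
    all_goals
      simp only [dotProduct, Fin.sum_univ_three, Pi.add_apply, Pi.smul_apply, smul_eq_mul,
        Fin.zero_eta, Fin.mk_one, Fin.reduceFinMk, Matrix.cons_val_zero, Matrix.cons_val_one,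
        Matrix.cons_val]
      field_simp
      rw [hDd]
      ring

theorem t_FAC : S_FAC := by
  intro J _ c d q hq hv f
  obtain ⟨j1, t1, n1⟩ : ∃ j, c j ⬝ᵥ q = d j ∧ c j ≠ 0 := by
    by_contra hcon
    have h := hv ![1, 0, 0] (fun j hj => by
      have : c j = 0 := by
        by_contra h0
        exact hcon ⟨j, hj, h0⟩
      rw [this, zero_dotProduct])
    have := congrFun h 0
    simp at this
  obtain ⟨j2, t2, n2⟩ : ∃ j, c j ⬝ᵥ q = d j ∧ ¬ (c j1 1 * c j 2 - c j1 2 * c j 1 = 0 ∧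
      c j1 2 * c j 0 - c j1 0 * c j 2 = 0 ∧ c j1 0 * c j 1 - c j1 1 * c j 0 = 0) := by
    by_contra hcon
    have hc : ∀ j, c j ⬝ᵥ q = d j → (c j1 1 * c j 2 - c j1 2 * c j 1 = 0 ∧
      c j1 2 * c j 0 - c j1 0 * c j 2 = 0 ∧ c j1 0 * c j 1 - c j1 1 * c j 0 = 0) := by
      intro j hj
      by_contra h0
      exact hcon ⟨j, hj, h0⟩
    have e1 := hv ![0, c j1 2, -c j1 1] (fun j hj => by
      obtain ⟨h1, h2, h3⟩ := hc j hj
      simp only [dotProduct, Fin.sum_univ_three, Matrix.cons_val_zero, Matrix.cons_val_one,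
        Matrix.cons_val]
      linarith)
    have e2 := hv ![-c j1 2, 0, c j1 0] (fun j hj => by
      obtain ⟨h1, h2, h3⟩ := hc j hj
      simp only [dotProduct, Fin.sum_univ_three, Matrix.cons_val_zero, Matrix.cons_val_one,
        Matrix.cons_val]
      linarith)
    apply n1
    have a1 := congrFun e1 1
    have a2 := congrFun e1 2
    have a3 := congrFun e2 2
    simp only [Matrix.cons_val_zero, Matrix.cons_val_one, Matrix.cons_val, Pi.zero_apply] at a1 a2 a3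
    ext k
    fin_cases k
    · exact a3
    · change c j1 1 = 0
      linarith
    · exact a1
  obtain ⟨j3, t3, n3⟩ : ∃ j, c j ⬝ᵥ q = d j ∧
      c j 0 * (c j1 1 * c j2 2 - c j1 2 * c j2 1) + c j 1 * (c j1 2 * c j2 0 - c j1 0 * c j2 2) +
      c j 2 * (c j1 0 * c j2 1 - c j1 1 * c j2 0) ≠ 0 := by
    by_contra hcon
    have h := hv ![c j1 1 * c j2 2 - c j1 2 * c j2 1, c j1 2 * c j2 0 - c j1 0 * c j2 2,
      c j1 0 * c j2 1 - c j1 1 * c j2 0] (fun j hj => by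
        by_contra h0
        apply hcon
        refine ⟨j, hj, ?_⟩
        simpa only [dotProduct, Fin.sum_univ_three, Matrix.cons_val_zero, Matrix.cons_val_one,
          Matrix.cons_val] using h0)
    apply n2
    have a1 := congrFun h 0
    have a2 := congrFun h 1
    have a3 := congrFun h 2
    simp only [Matrix.cons_val_zero, Matrix.cons_val_one, Matrix.cons_val, Pi.zero_apply] at a1 a2 a3
    exact ⟨a1, a2, a3⟩
  obtain ⟨U, V, W, hU, hV, hW, hrep⟩ := dual (c j1) (c j2) (c j3) n3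
  have nU : U ≠ 0 := by
    rintro rfl
    rw [dotProduct_zero] at hU
    exact zero_ne_one hU
  have nV : V ≠ 0 := by
    rintro rfl
    rw [dotProduct_zero] at hV
    exact zero_ne_one hV
  have nW : W ≠ 0 := by
    rintro rfl
    rw [dotProduct_zero] at hW
    exact zero_ne_one hW
  have F3 : ((lp f U ∧ lp f V) ∨ (lp f (-U) ∧ lp f (-V))) → ∃ j, c j ⬝ᵥ q = d j ∧
    ((∀ x, (∀ i, c i ⬝ᵥ x ≤ d i) → c j ⬝ᵥ x = d j → x ≠ q → lp f (q - x)) ∨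
     (∀ x, (∀ i, c i ⬝ᵥ x ≤ d i) → c j ⬝ᵥ x = d j → x ≠ q → lp f (x - q))) := fun h =>
    ⟨j3, t3, pair c d j3 j1 j2 t1 t2 t3 (fun u hu => by
      have := hrep u
      rwa [hu, zero_smul, add_zero] at this) h⟩
  have F2 : ((lp f U ∧ lp f W) ∨ (lp f (-U) ∧ lp f (-W))) → ∃ j, c j ⬝ᵥ q = d j ∧
    ((∀ x, (∀ i, c i ⬝ᵥ x ≤ d i) → c j ⬝ᵥ x = d j → x ≠ q → lp f (q - x)) ∨
     (∀ x, (∀ i, c i ⬝ᵥ x ≤ d i) → c j ⬝ᵥ x = d j → x ≠ q → lp f (x - q))) := fun h =>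
    ⟨j2, t2, pair c d j2 j1 j3 t1 t3 t2 (fun u hu => by
      have := hrep u
      rwa [hu, zero_smul, add_zero] at this) h⟩
  have F1 : ((lp f V ∧ lp f W) ∨ (lp f (-V) ∧ lp f (-W))) → ∃ j, c j ⬝ᵥ q = d j ∧
    ((∀ x, (∀ i, c i ⬝ᵥ x ≤ d i) → c j ⬝ᵥ x = d j → x ≠ q → lp f (q - x)) ∨
     (∀ x, (∀ i, c i ⬝ᵥ x ≤ d i) → c j ⬝ᵥ x = d j → x ≠ q → lp f (x - q))) := fun h =>
    ⟨j1, t1, pair c d j1 j2 j3 t2 t3 t1 (fun u hu => by
      have := hrep u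
      rwa [hu, zero_smul, zero_add] at this) h⟩
  rcases lp_tri f nU with a | a <;> rcases lp_tri f nV with b | b <;>
    rcases lp_tri f nW with e | e
  · exact F3 (Or.inl ⟨a, b⟩)
  · exact F3 (Or.inl ⟨a, b⟩)
  · exact F2 (Or.inl ⟨a, e⟩)
  · exact F1 (Or.inr ⟨b, e⟩)
  · exact F1 (Or.inl ⟨b, e⟩)
  · exact F2 (Or.inr ⟨a, e⟩)
  · exact F3 (Or.inr ⟨a, b⟩)
  · exact F3 (Or.inr ⟨a, b⟩)

end Pool.Agent.X71.L3
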